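import Mathlib

/-!
# Additive covering of `Alg_n(X)` for approximate subfields
-/

set_option autoImplicit false

namespace Pool.Agent.Results.MP_a5fc84_co.Covering

open Pointwise

/-- `X` is an approximate subfield of `F`. -/
def IsApproxSubfield {F : Type*} [Field F] (X : Set F) : Prop :=
  (0 ∈ X ∧ X = -X) ∧ (1 ∈ X ∧ X \ {0} = (X \ {0})⁻¹) ∧
    ∃ E : Set F, E.Finite ∧ X * X + X ⊆ (E * X) ∩ (E + X)

/-- `S_n(X)`: the sums of at most `n` terms, each being a product of at most `n` elements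
of `X`. -/
def S {F : Type*} [Field F] (n : ℕ) (X : Set F) : Set F :=
  {s | ∃ L : List (List F), L.length ≤ n ∧ (∀ l ∈ L, l.length ≤ n ∧ ∀ x ∈ l, x ∈ X) ∧
    s = (L.map List.prod).sum}

/-- `Alg_n(X) = {a / b : a, b ∈ S_n(X), b ≠ 0}`. -/
def Alg {F : Type*} [Field F] (n : ℕ) (X : Set F) : Set F :=
  {q | ∃ a ∈ S n X, ∃ b ∈ S n X, b ≠ 0 ∧ q = a / b}

section

variable {F : Type*} [Field F] {X : Set F}

/-- `Y` is covered by finitely many translates of `X`. -/
def Cov (X Y : Set F) : Prop := ∃ T : Set F, T.Finite ∧ Y ⊆ T + X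

/-- The multipliers `r` such that `r X` is covered by finitely many translates of `X`. -/
def O (X : Set F) : Set F := {r | ∃ T : Set F, T.Finite ∧ ∀ x ∈ X, r * x ∈ T + X}

theorem S_finite (hX : X.Finite) (n : ℕ) : (S n X).Finite := by
  -- products
  have hP : ∀ k : ℕ, {p : F | ∃ l : List F, l.length ≤ k ∧ (∀ x ∈ l, x ∈ X) ∧
      p = l.prod}.Finite := by
    intro k
    induction k with
    | zero =>
      refine (Set.finite_singleton (1 : F)).subset ?_
      rintro p ⟨l, hl, -, rfl⟩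
      rw [List.eq_nil_of_length_eq_zero (Nat.le_zero.mp hl)]
      rfl
    | succ k ih =>
      refine ((Set.finite_singleton (1 : F)).union (hX.mul ih)).subset ?_
      rintro p ⟨l, hl, hx, rfl⟩
      cases l with
      | nil => exact Or.inl rfl
      | cons a l =>
        refine Or.inr ?_
        rw [List.prod_cons]
        refine Set.mul_mem_mul (hx a (by simp)) ⟨l, ?_, fun x hx' => hx x (by simp [hx']), rfl⟩
        simpa using hl
  have hS : ∀ k : ℕ, {s : F | ∃ L : List (List F), L.length ≤ k ∧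
      (∀ l ∈ L, l.length ≤ n ∧ ∀ x ∈ l, x ∈ X) ∧ s = (L.map List.prod).sum}.Finite := by
    intro k
    induction k with
    | zero =>
      refine (Set.finite_singleton (0 : F)).subset ?_
      rintro p ⟨L, hL, -, rfl⟩
      rw [List.eq_nil_of_length_eq_zero (Nat.le_zero.mp hL)]
      rfl
    | succ k ih =>
      refine ((Set.finite_singleton (0 : F)).union ((hP n).add ih)).subset ?_
      rintro p ⟨L, hL, hx, rfl⟩
      cases L with
      | nil => exact Or.inl rfl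
      | cons a L =>
        refine Or.inr ?_
        rw [List.map_cons, List.sum_cons]
        refine Set.add_mem_add ⟨a, (hx a (by simp)).1, (hx a (by simp)).2, rfl⟩
          ⟨L, ?_, fun l hl => hx l (by simp [hl]), rfl⟩
        simpa using hL
  exact hS n

theorem S_sub (n : ℕ) : S n X ⊆ Subring.closure X := by
  rintro s ⟨L, -, hL, rfl⟩
  apply Subring.list_sum_mem
  intro p hp
  rw [List.mem_map] at hp
  obtain ⟨l, hl, rfl⟩ := hp
  exact Subring.list_prod_mem _ fun x hx => Subring.subset_closure ((hL l hl).2 x hx)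

/-- Elementary consequences of the definition. -/
theorem basic (hX : IsApproxSubfield X) : (0 : F) ∈ X ∧ (1 : F) ∈ X ∧ (∀ x ∈ X, -x ∈ X) ∧
    (∀ x ∈ X, x ≠ 0 → x⁻¹ ∈ X) ∧ ∃ E : Set F, E.Finite ∧
      (∀ x ∈ X, ∀ y ∈ X, ∃ e ∈ E, ∃ z ∈ X, x - y = e * z) ∧
      (∀ x ∈ X, ∀ y ∈ X, ∃ e ∈ E, ∃ z ∈ X, x + y = e + z) ∧
      (∀ x ∈ X, ∀ y ∈ X, ∃ e ∈ E, ∃ z ∈ X, x * y = e + z) := by
  obtain ⟨⟨h0, hneg⟩, ⟨h1, hinv⟩, E, hE, hsub⟩ := hX
  have hneg' : ∀ x ∈ X, -x ∈ X := by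
    intro x hx
    rw [hneg] at hx
    exact Set.mem_neg.mp hx
  have hinv' : ∀ x ∈ X, x ≠ 0 → x⁻¹ ∈ X := by
    intro x hx hx0
    have : x ∈ X \ {0} := ⟨hx, hx0⟩
    rw [hinv] at this
    exact (Set.mem_inv.mp this).1
  have hmem : ∀ x ∈ X, ∀ y ∈ X, ∀ z ∈ X, x * y + z ∈ X * X + X := fun x hx y hy z hz =>
    Set.add_mem_add (Set.mul_mem_mul hx hy) hz
  refine ⟨h0, h1, hneg', hinv', E, hE, ?_, ?_, ?_⟩
  · intro x hx y hy
    have := (hsub (hmem x hx 1 h1 (-y) (hneg' y hy))).1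
    rw [mul_one, ← sub_eq_add_neg] at this
    obtain ⟨e, he, z, hz, h⟩ := Set.mem_mul.mp this
    exact ⟨e, he, z, hz, h.symm⟩
  · intro x hx y hy
    have := (hsub (hmem x hx 1 h1 y hy)).2
    rw [mul_one] at this
    obtain ⟨e, he, z, hz, h⟩ := Set.mem_add.mp this
    exact ⟨e, he, z, hz, h.symm⟩
  · intro x hx y hy
    have := (hsub (hmem x hx y hy 0 h0)).2
    rw [add_zero] at this
    obtain ⟨e, he, z, hz, h⟩ := Set.mem_add.mp this
    exact ⟨e, he, z, hz, h.symm⟩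

/-- The ring generated by `X` consists of multipliers. -/
theorem closure_sub_O (hX : IsApproxSubfield X) : (Subring.closure X : Set F) ⊆ O X := by
  obtain ⟨h0, h1, hneg, hinv, E, hE, -, hadd, hmul⟩ := basic hX
  intro r hr
  refine Subring.closure_induction (p := fun r _ => r ∈ O X) ?_ ?_ ?_ ?_ ?_ ?_ hr
  · intro x hx
    refine ⟨E, hE, fun y hy => ?_⟩
    obtain ⟨e, he, z, hz, h⟩ := hmul x hx y hy
    rw [h]
    exact Set.add_mem_add he hz
  · refine ⟨{0}, Set.finite_singleton 0, fun x _ => ?_⟩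
    rw [zero_mul]
    exact Set.mem_add.mpr ⟨0, rfl, 0, h0, by simp⟩
  · refine ⟨{0}, Set.finite_singleton 0, fun x hx => ?_⟩
    rw [one_mul]
    exact Set.mem_add.mpr ⟨0, rfl, x, hx, by simp⟩
  · rintro a b - - ⟨Ta, hTa, ha⟩ ⟨Tb, hTb, hb⟩
    refine ⟨(Ta + Tb) + E, (hTa.add hTb).add hE, fun x hx => ?_⟩
    obtain ⟨t, ht, y, hy, e1⟩ := Set.mem_add.mp (ha x hx)
    obtain ⟨t', ht', y', hy', e2⟩ := Set.mem_add.mp (hb x hx)
    obtain ⟨e, he, z, hz, e3⟩ := hadd y hy y' hy'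
    refine Set.mem_add.mpr ⟨t + t' + e, Set.add_mem_add (Set.add_mem_add ht ht') he, z, hz, ?_⟩
    rw [add_mul, ← e1, ← e2]
    calc t + t' + e + z = t + t' + (e + z) := by ring
      _ = t + t' + (y + y') := by rw [e3]
      _ = _ := by ring
  · rintro a - ⟨Ta, hTa, ha⟩
    refine ⟨-Ta, hTa.neg, fun x hx => ?_⟩
    obtain ⟨t, ht, y, hy, e1⟩ := Set.mem_add.mp (ha x hx)
    exact Set.mem_add.mpr ⟨-t, Set.neg_mem_neg.mpr ht, -y, hneg y hy, by
      rw [neg_mul, ← e1]; ring⟩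
  · rintro a b - - ⟨Ta, hTa, ha⟩ ⟨Tb, hTb, hb⟩
    refine ⟨{a} * Tb + Ta, ((Set.finite_singleton a).mul hTb).add hTa, fun x hx => ?_⟩
    obtain ⟨t', ht', y', hy', e2⟩ := Set.mem_add.mp (hb x hx)
    obtain ⟨t, ht, y, hy, e1⟩ := Set.mem_add.mp (ha y' hy')
    refine Set.mem_add.mpr ⟨a * t' + t,
      Set.add_mem_add (Set.mul_mem_mul (Set.mem_singleton a) ht') ht, y, hy, ?_⟩
    rw [mul_assoc, ← e2, mul_add, ← e1]
    ring

/-- The pigeonhole step. -/
theorem key (hX : IsApproxSubfield X) (hinf : X.Infinite) : ∃ G : Set F, G.Finite ∧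
    (∀ g ∈ G, ∃ a ∈ Subring.closure X, ∃ b ∈ Subring.closure X, b ≠ 0 ∧ g = a / b) ∧
    ∀ r ∈ O X, r ≠ 0 → ∃ g ∈ G, ∃ z ∈ X, ∃ w ∈ X, z ≠ 0 ∧ w ≠ 0 ∧ g ≠ 0 ∧ r = g * (z * w) := by
  classical
  obtain ⟨h0, h1, hneg, hinv, E, hE, hdiff, hadd, hmul⟩ := basic hX
  set E1 : Set F := {e ∈ E | e ∈ Subring.closure X ∧ e ≠ 0} with hE1
  have hE1f : E1.Finite := hE.subset fun e he => he.1
  refine ⟨E1 / E1, hE1f.div hE1f, ?_, ?_⟩
  · intro g hg
    obtain ⟨a, ha, b, hb, rfl⟩ := Set.mem_div.mp hg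
    exact ⟨a, ha.2.1, b, hb.2.1, hb.2.2, rfl⟩
  · rintro r ⟨T, hT, hr⟩ hr0
    -- a map from `X` to the finite set `T`
    have hch : ∀ x : X, ∃ t : T, ∃ y ∈ X, r * x = t + y := by
      intro x
      obtain ⟨t, ht, y, hy, h⟩ := Set.mem_add.mp (hr x x.2)
      exact ⟨⟨t, ht⟩, y, hy, h.symm⟩
    choose φ hφ using hch
    have : Infinite X := hinf.to_subtype
    have : Finite T := hT
    obtain ⟨x, y, hxy, hφxy⟩ := Finite.exists_ne_map_eq_of_infinite φ
    obtain ⟨u, hu, eu⟩ := hφ x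
    obtain ⟨v, hv, ev⟩ := hφ y
    have hxy' : (x : F) - y ≠ 0 := sub_ne_zero.mpr fun h => hxy (Subtype.ext h)
    have heq : r * ((x : F) - y) = u - v := by
      rw [mul_sub, eu, ev, hφxy]; ring
    have huv : u - v ≠ 0 := by
      rw [← heq]; exact mul_ne_zero hr0 hxy'
    obtain ⟨e, he, z, hz, ez⟩ := hdiff u hu v hv
    obtain ⟨e', he', z', hz', ez'⟩ := hdiff x x.2 y y.2
    have hz0 : z ≠ 0 := by rintro rfl; rw [mul_zero] at ez; exact huv ez
    have he0 : e ≠ 0 := by rintro rfl; rw [zero_mul] at ez; exact huv ez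
    have hz'0 : z' ≠ 0 := by rintro rfl; rw [mul_zero] at ez'; exact hxy' ez'
    have he'0 : e' ≠ 0 := by rintro rfl; rw [zero_mul] at ez'; exact hxy' ez'
    have hcl : ∀ x ∈ X, x ∈ Subring.closure X := fun x hx => Subring.subset_closure hx
    have heR : e ∈ Subring.closure X := by
      have : e = (u - v) * z⁻¹ := by rw [ez]; field_simp
      rw [this]
      exact Subring.mul_mem _ (Subring.sub_mem _ (hcl u hu) (hcl v hv)) (hcl _ (hinv z hz hz0))
    have he'R : e' ∈ Subring.closure X := by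
      have : e' = ((x : F) - y) * z'⁻¹ := by rw [ez']; field_simp
      rw [this]
      exact Subring.mul_mem _ (Subring.sub_mem _ (hcl x x.2) (hcl y y.2))
        (hcl _ (hinv z' hz' hz'0))
    refine ⟨e / e', Set.div_mem_div ⟨he, heR, he0⟩ ⟨he', he'R, he'0⟩, z, hz, z'⁻¹,
      hinv z' hz' hz'0, hz0, inv_ne_zero hz'0, div_ne_zero he0 he'0, ?_⟩
    rw [ez, ez'] at heq
    field_simp
    field_simp at heq
    linear_combination heq

/-- The ring generated by `X` is a field. -/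
theorem inv_mem (hX : IsApproxSubfield X) (hinf : X.Infinite) {r : F}
    (hr : r ∈ Subring.closure X) : r⁻¹ ∈ Subring.closure X := by
  classical
  by_cases hr0 : r = 0
  · rw [hr0, inv_zero]; exact Subring.zero_mem _
  obtain ⟨h0, h1, hneg, hinv, -⟩ := basic hX
  obtain ⟨G, hG, -, hkey⟩ := key hX hinf
  have hcl : ∀ x ∈ X, x ∈ Subring.closure X := fun x hx => Subring.subset_closure hx
  have hpow : ∀ n : ℕ, ∃ g : G, ∃ z ∈ X, ∃ w ∈ X, z ≠ 0 ∧ w ≠ 0 ∧ (g : F) ≠ 0 ∧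
      r ^ n = g * (z * w) := by
    intro n
    obtain ⟨g, hg, z, hz, w, hw, a1, a2, a3, a4⟩ := hkey (r ^ n)
      (closure_sub_O hX (Subring.pow_mem _ hr n)) (pow_ne_zero n hr0)
    exact ⟨⟨g, hg⟩, z, hz, w, hw, a1, a2, a3, a4⟩
  choose φ hφ using hpow
  have : Finite G := hG
  obtain ⟨n, m, hnm, hφnm⟩ := Finite.exists_ne_map_eq_of_infinite φ
  have main : ∀ n m : ℕ, n < m → φ n = φ m → r⁻¹ ∈ Subring.closure X := by
    intro n m hnm hφnm
    obtain ⟨z, hz, w, hw, a1, a2, a3, a4⟩ := hφ n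
    obtain ⟨z', hz', w', hw', b1, b2, b3, b4⟩ := hφ m
    obtain ⟨d, rfl⟩ : ∃ d, m = n + (d + 1) := ⟨m - n - 1, by omega⟩
    have e1 : r⁻¹ = r ^ d * (z * w * (z'⁻¹ * w'⁻¹)) := by
      have hn0 : r ^ n ≠ 0 := pow_ne_zero n hr0
      have e2 : r ^ n * r ^ (d + 1) = φ n * (z' * w') := by rw [← pow_add, b4, hφnm]
      rw [a4] at e2
      have e3 : z * w * r ^ (d + 1) = z' * w' := by
        have : (φ n : F) * (z * w * r ^ (d + 1)) = φ n * (z' * w') := by rw [← e2]; ring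
        exact mul_left_cancel₀ a3 this
      rw [pow_succ] at e3
      field_simp
      linear_combination (-1 : F) * e3
    rw [e1]
    exact Subring.mul_mem _ (Subring.pow_mem _ hr d) (Subring.mul_mem _
      (Subring.mul_mem _ (hcl z hz) (hcl w hw))
      (Subring.mul_mem _ (hcl _ (hinv z' hz' b1)) (hcl _ (hinv w' hw' b2))))
  rcases lt_or_gt_of_ne hnm with h | h
  · exact main n m h hφnm
  · exact main m n h hφnm.symm

/-- The ring generated by `X` is covered by finitely many translates of `X`. -/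
theorem closure_cov (hX : IsApproxSubfield X) (hinf : X.Infinite) :
    ∃ T : Set F, T.Finite ∧ (Subring.closure X : Set F) ⊆ T + X := by
  classical
  obtain ⟨h0, h1, hneg, hinv, E, hE, hdiff, hadd, hmul⟩ := basic hX
  obtain ⟨G, hG, hG2, hkey⟩ := key hX hinf
  have hch : ∀ g : G, ∃ T : Set F, T.Finite ∧ ∀ x ∈ X, (g : F) * x ∈ T + X := by
    intro g
    obtain ⟨a, ha, b, hb, hb0, h⟩ := hG2 g g.2
    apply closure_sub_O hX
    rw [h, div_eq_mul_inv]
    exact Subring.mul_mem _ ha (inv_mem hX hinf hb)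
  choose T hT hTX using hch
  have : Finite G := hG
  refine ⟨{0} ∪ ⋃ g : G, ({(g : F)} * E + T g), (Set.finite_singleton 0).union
    (Set.finite_iUnion fun g => ((Set.finite_singleton _).mul hE).add (hT g)), ?_⟩
  intro r hr
  by_cases hr0 : r = 0
  · rw [hr0]
    exact Set.mem_add.mpr ⟨0, Or.inl rfl, 0, h0, by simp⟩
  · obtain ⟨g, hg, z, hz, w, hw, -, -, -, e⟩ := hkey r (closure_sub_O hX hr) hr0
    obtain ⟨e2, he2, x, hx, ex⟩ := hmul z hz w hw
    obtain ⟨t, ht, y, hy, ey⟩ := Set.mem_add.mp (hTX ⟨g, hg⟩ x hx)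
    refine Set.mem_add.mpr ⟨g * e2 + t, Or.inr (Set.mem_iUnion.mpr ⟨⟨g, hg⟩,
      Set.add_mem_add (Set.mul_mem_mul (Set.mem_singleton g) he2) ht⟩), y, hy, ?_⟩
    rw [e, ex, mul_add, ← ey]
    ring

end

/-- **Q1 holds.**  For every field `F`, every approximate subfield `X ⊆ F` and every `n ≥ 1` there
is a finite set `T` with `Alg_n(X) ⊆ T + X`. -/
theorem result {F : Type*} [Field F] (X : Set F) (hX : IsApproxSubfield X) (n : ℕ) (_hn : 1 ≤ n) :
    ∃ T : Set F, T.Finite ∧ Alg n X ⊆ T + X := by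
  by_cases hfin : X.Finite
  · refine ⟨Alg n X, ?_, fun q hq => ?_⟩
    · refine (((S_finite hfin n).div (S_finite hfin n))).subset ?_
      rintro q ⟨a, ha, b, hb, -, rfl⟩
      exact Set.div_mem_div ha hb
    · exact Set.mem_add.mpr ⟨q, hq, 0, (basic hX).1, add_zero q⟩
  · obtain ⟨T, hT, hcov⟩ := closure_cov hX hfin
    refine ⟨T, hT, ?_⟩
    rintro q ⟨a, ha, b, hb, -, rfl⟩
    apply hcov
    rw [div_eq_mul_inv]
    exact Subring.mul_mem _ (S_sub n ha) (inv_mem hX hfin (S_sub n hb))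

end Pool.Agent.Results.MP_a5fc84_co.Covering
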